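import Mathlib

namespace Pool.Agent.Results.MP_25d2c4_an.Square

open Metric BoundedContinuousFunction

def ASQ (X : Type) [NormedAddCommGroup X] : Prop :=
  ∀ (s : Finset X) (ε : ℝ), 0 < ε → (∀ x ∈ s, ‖x‖ = 1) → ∃ y : X, ‖y‖ = 1 ∧ ∀ x ∈ s, ‖x + y‖ ≤ 1 + ε

noncomputable def SymInj (𝕜 X : Type) [RCLike 𝕜] [NormedAddCommGroup X] [NormedSpace 𝕜 X] (N : ℕ) :
    Submodule 𝕜 (closedBall (0 : X →L[𝕜] 𝕜) 1 →ᵇ 𝕜) :=
  (Submodule.span 𝕜 {u : closedBall (0 : X →L[𝕜] 𝕜) 1 →ᵇ 𝕜 |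
    ∃ x : X, ∀ φ, u φ = φ.1 x ^ N}).topologicalClosure

variable {𝕜 X : Type} [RCLike 𝕜] [NormedAddCommGroup X] [NormedSpace 𝕜 X]

theorem ball_le (φ : closedBall (0 : X →L[𝕜] 𝕜) 1) (x : X) : ‖φ.1 x‖ ≤ ‖x‖ :=
  (φ.1.le_opNorm x).trans (mul_le_of_le_one_left (norm_nonneg _) (mem_closedBall_zero_iff.1 φ.2))

theorem sq (h : ASQ X) (E : Submodule 𝕜 X) [FiniteDimensional 𝕜 E] (δ : ℝ) (hδ : 0 < δ) :
    ∃ y : X, ‖y‖ = 1 ∧ ∀ φ : closedBall (0 : X →L[𝕜] 𝕜) 1,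
      ‖φ.1 ∘L E.subtypeL‖ ≤ 1 + 2 * δ - ‖φ.1 y‖ := by
  have := FiniteDimensional.proper_rclike 𝕜 E
  obtain ⟨t, ts, tf, ht⟩ := (isCompact_sphere (0 : E) 1).finite_cover_balls hδ
  obtain ⟨y, hy, k⟩ := h (tf.image (↑)).toFinset δ hδ fun x hx => by
    obtain ⟨e, he, rfl⟩ := (Set.Finite.mem_toFinset _).1 hx
    exact mem_sphere_zero_iff_norm.1 (ts he)
  refine ⟨y, hy, fun φ => ContinuousLinearMap.opNorm_le_of_unit_norm
    (by linarith [ball_le φ y]) fun x hx => ?_⟩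
  obtain ⟨a, a1, a2⟩ := RCLike.exists_norm_eq_mul_self (φ.1 x)
  obtain ⟨b, b1, b2⟩ := RCLike.exists_norm_mul_eq_self (φ.1 y)
  obtain ⟨e, he, h1⟩ := Set.mem_iUnion₂.1 (ht (show (b * a) • x ∈ _ by
    simp [norm_smul, a1, b1, hx]))
  have h2 := k e ((Set.Finite.mem_toFinset _).2 ⟨e, he, rfl⟩)
  have h3 := ball_le φ ((b * a) • x + y)
  have h4 : φ.1 ((b * a) • x + y) = b * ((‖φ.1 x‖ + ‖φ.1 y‖ : ℝ) : 𝕜) := by
    rw [map_add, map_smul, smul_eq_mul, mul_assoc, ← a2, RCLike.ofReal_add, mul_add, b2]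
  have h5 : ‖(b * a) • (x : X) - e‖ < δ := mem_ball_iff_norm.1 h1
  have h6 := norm_add_le ((b * a) • (x : X) - e) (e + y)
  rw [h4, norm_mul, b1, one_mul, RCLike.norm_ofReal, abs_of_nonneg (by positivity)] at h3
  rw [← add_assoc, sub_add_cancel] at h6
  show ‖φ.1 x‖ ≤ _
  linarith

theorem hom (E : Submodule 𝕜 X) (N : ℕ) (u : closedBall (0 : X →L[𝕜] 𝕜) 1 →ᵇ 𝕜)
    (hu : u ∈ Submodule.span 𝕜 {u : closedBall (0 : X →L[𝕜] 𝕜) 1 →ᵇ 𝕜 |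
      ∃ x ∈ E, ∀ φ, u φ = φ.1 x ^ N}) (φ : closedBall (0 : X →L[𝕜] 𝕜) 1) (c : ℝ)
    (hc : ‖φ.1 ∘L E.subtypeL‖ < c) : ‖u φ‖ ≤ c ^ N * ‖u‖ := by
  have c0 : 0 < c := (norm_nonneg _).trans_lt hc
  obtain ⟨g, g1, g2⟩ := exists_extension_norm_eq E (φ.1 ∘L E.subtypeL)
  have hg : ((c : 𝕜)⁻¹ • g) ∈ closedBall (0 : X →L[𝕜] 𝕜) 1 := by
    rw [mem_closedBall_zero_iff, norm_smul, g2, norm_inv, RCLike.norm_ofReal, abs_of_pos c0,
      inv_mul_le_iff₀ c0, mul_one]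
    exact hc.le
  have : u φ = (c : 𝕜) ^ N * u ⟨_, hg⟩ := by
    induction hu using Submodule.span_induction with
    | mem u h =>
      obtain ⟨x, hx, h⟩ := h
      have : (c : 𝕜) ≠ 0 := by exact_mod_cast c0.ne'
      rw [h, h, ← mul_pow, show φ.1 x = g x from (g1 ⟨x, hx⟩).symm]
      simp [this]
    | zero => simp
    | add u v _ _ h k => rw [BoundedContinuousFunction.add_apply, BoundedContinuousFunction.add_apply, h, k, mul_add]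
    | smul a u _ h => 
      rw [BoundedContinuousFunction.smul_apply, BoundedContinuousFunction.smul_apply, h, smul_eq_mul, smul_eq_mul, mul_left_comm]
  rw [this, norm_mul, norm_pow, RCLike.norm_ofReal, abs_of_pos c0]
  gcongr
  exact u.norm_coe_le_norm _

theorem fin (N : ℕ) (u : closedBall (0 : X →L[𝕜] 𝕜) 1 →ᵇ 𝕜)
    (hu : u ∈ Submodule.span 𝕜 {u : closedBall (0 : X →L[𝕜] 𝕜) 1 →ᵇ 𝕜 |
      ∃ x : X, ∀ φ, u φ = φ.1 x ^ N}) : ∃ t : Finset X, ∀ E : Submodule 𝕜 X, (t : Set X) ⊆ E →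
      u ∈ Submodule.span 𝕜 {u : closedBall (0 : X →L[𝕜] 𝕜) 1 →ᵇ 𝕜 |
        ∃ x ∈ E, ∀ φ, u φ = φ.1 x ^ N} := by
  classical
  induction hu using Submodule.span_induction with
  | mem u h =>
    obtain ⟨x, h⟩ := h
    exact ⟨{x}, fun E hE => Submodule.subset_span ⟨x, hE (by simp), h⟩⟩
  | zero => exact ⟨∅, fun _ _ => zero_mem _⟩
  | add u v _ _ h k =>
    obtain ⟨s, h⟩ := h
    obtain ⟨t, k⟩ := k
    exact ⟨s ∪ t, fun E hE => add_mem (h E fun x hx => hE (by simp [Finset.mem_coe.1 hx]))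
      (k E fun x hx => hE (by simp [Finset.mem_coe.1 hx]))⟩
  | smul a u _ h => exact h.imp fun t h E hE => Submodule.smul_mem _ _ (h E hE)

theorem result (𝕜 X : Type) [RCLike 𝕜] [NormedAddCommGroup X] [NormedSpace 𝕜 X] [CompleteSpace X]
    (h : ASQ X) (N : ℕ) (hN : 1 ≤ N) : ASQ (SymInj 𝕜 X N) := by
  classical
  intro s ε hε hs
  obtain ⟨δ, hδ, hd⟩ : ∃ δ > 0, δ + (1 + 3 * δ) ^ N * (1 + δ) < 1 + ε := by
    have : ContinuousAt (fun δ : ℝ => δ + (1 + 3 * δ) ^ N * (1 + δ)) 0 := by fun_prop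
    exact (((this.eventually (gt_mem_nhds (by simpa using hε))).filter_mono
      nhdsWithin_le_nhds).and (self_mem_nhdsWithin (s := Set.Ioi 0))).exists.imp fun _ h => h.symm
  choose v hv h1 using fun u : SymInj 𝕜 X N => Metric.mem_closure_iff.1 u.2 δ hδ
  choose t ht using fun u => fin N (v u) (hv u)
  let E := Submodule.span 𝕜 (s.biUnion t : Set X)
  obtain ⟨y, hy, k⟩ := sq h E δ hδ
  have bd : ∀ φ : closedBall (0 : X →L[𝕜] 𝕜) 1, ‖φ.1 y ^ N‖ ≤ 1 := fun φ => by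
    rw [norm_pow]; exact pow_le_one₀ (norm_nonneg _) ((ball_le φ y).trans hy.le)
  let w := ofNormedAddCommGroup (fun φ : closedBall (0 : X →L[𝕜] 𝕜) 1 => φ.1 y ^ N)
    (by fun_prop) 1 bd
  refine ⟨⟨w, subset_closure (Submodule.subset_span ⟨y, fun _ => rfl⟩)⟩,
    le_antisymm ((norm_le zero_le_one).2 bd) ?_, fun u hu => (norm_le (by positivity)).2 fun φ => ?_⟩
  · obtain ⟨g, g1, g2⟩ := exists_dual_vector 𝕜 y (by rw [hy]; exact one_ne_zero)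
    have := w.norm_coe_le_norm ⟨g, mem_closedBall_zero_iff.2 g1.le⟩
    rwa [show w ⟨g, _⟩ = g y ^ N from rfl, g2, hy, RCLike.ofReal_one, one_pow, norm_one] at this
  · have b1 := ball_le φ y
    have h2 := hom E N (v u) (ht u E fun x hx => Submodule.subset_span
      (Finset.mem_coe.2 (Finset.mem_biUnion.2 ⟨u, hu, hx⟩))) φ (1 + 3 * δ - ‖φ.1 y‖)
      (by linarith [k φ])
    have h3 : ‖u.1 - v u‖ < δ := dist_eq_norm u.1 (v u) ▸ h1 u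
    have h4 : ‖v u‖ ≤ 1 + δ := by
      linarith [norm_sub_norm_le (v u) u.1, norm_sub_rev (v u) u.1, show ‖u.1‖ = 1 from hs u hu]
    have h5 : ‖u.1 φ - v u φ‖ ≤ _ := (u.1 - v u).norm_coe_le_norm φ
    have p : 0 ≤ 1 + 3 * δ - ‖φ.1 y‖ := by linarith
    have h6 := pow_add_pow_le p (norm_nonneg (φ.1 y)) (Nat.one_le_iff_ne_zero.1 hN)
    have h7 := norm_add₃_le (a := u.1 φ - v u φ) (b := v u φ) (c := φ.1 y ^ N)
    rw [sub_add_cancel] at h6 h7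
    rw [norm_pow] at h7
    show ‖u.1 φ + φ.1 y ^ N‖ ≤ _
    nlinarith [mul_le_mul_of_nonneg_left h4 (pow_nonneg p N), pow_nonneg (norm_nonneg (φ.1 y)) N,
      mul_le_mul_of_nonneg_right h6 (by linarith : 0 ≤ 1 + δ)]

end Pool.Agent.Results.MP_25d2c4_an.Square
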